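import Pool.Agent.H88.MC.Targets

/-!
# Lower tail of quadratic forms in random signs (HW)
-/

set_option autoImplicit false

open Finset

namespace Pool.Agent.H69.E0

open Pool.Agent.H88.MC

theorem pf_hw (hHW1 : T_HW1) : T_HW := by
  classical
  intro n K hT hI
  obtain ⟨q, hq⟩ : ∃ q : (Fin n → Bool) → ℝ, q = fun y => qf K (sgr y) := ⟨_, rfl⟩
  obtain ⟨t, ht⟩ : ∃ t : ℝ, t = K.trace := ⟨_, rfl⟩
  have h1 := hHW1 n K hT hI (1 / 128)
  have h2 := hHW1 n K hT hI (-(1 / 32))
  have hqy : ∀ y, qf K (sgr y) = q y := fun y => by rw [hq]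
  simp only [hqy, ← ht] at h1 h2 ⊢
  have hcard : (Finset.univ : Finset (Fin n → Bool)).card = 2 ^ n := by
    rw [Finset.card_univ, Fintype.card_fun, Fintype.card_bool, Fintype.card_fin]
  have hN : (0 : ℝ) < 2 ^ n := by positivity
  obtain ⟨S1, hS1⟩ : ∃ S : ℝ, S = ∑ y : Fin n → Bool, Real.exp (q y / 128) := ⟨_, rfl⟩
  obtain ⟨S2, hS2⟩ : ∃ S : ℝ, S = ∑ y : Fin n → Bool, Real.exp (q y / 2048) := ⟨_, rfl⟩
  have hS1p : 0 < S1 := by
    rw [hS1]
    exact Finset.sum_pos (fun y _ => Real.exp_pos _) ⟨fun _ => true, Finset.mem_univ _⟩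
  have hS2p : 0 < S2 := by
    rw [hS2]
    exact Finset.sum_pos (fun y _ => Real.exp_pos _) ⟨fun _ => true, Finset.mem_univ _⟩
  -- first inequality
  have e1 : Real.exp (-(t / 128)) * S1 ≤ S2 := by
    rw [hS1, hS2, Finset.mul_sum]
    refine le_trans (le_of_eq ?_) (h1.trans (le_of_eq ?_))
    · refine Finset.sum_congr rfl fun y _ => ?_
      rw [← Real.exp_add]
      congr 1
      ring
    · refine Finset.sum_congr rfl fun y _ => ?_
      congr 1
      ring
  -- Jensen
  have e2 : S2 ^ 16 / (2 ^ n) ^ 15 ≤ S1 := by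
    have h4 := pow_sum_div_card_le_sum_pow (s := (Finset.univ : Finset (Fin n → Bool)))
      (f := fun y => Real.exp (q y / 2048)) (fun y _ => (Real.exp_pos _).le) 15
    rw [hcard] at h4
    push_cast at h4
    rw [hS1, hS2]
    refine h4.trans (le_of_eq (Finset.sum_congr rfl fun y _ => ?_))
    rw [← Real.exp_nat_mul]
    congr 1
    push_cast
    ring
  -- the mean
  obtain ⟨F, hF⟩ : ∃ F : ℝ, F = S1 / 2 ^ n := ⟨_, rfl⟩
  have hFp : 0 < F := by rw [hF]; positivity
  have hS1F : S1 = F * 2 ^ n := by rw [hF]; field_simp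
  have e3 : F ≤ Real.exp (t / 120) := by
    have h5 : F ^ 16 ≤ Real.exp (t / 8) * F := by
      have h6 : F ≤ Real.exp (t / 128) * (S2 / 2 ^ n) := by
        rw [hF, mul_div_assoc', div_le_div_iff_of_pos_right hN]
        have h7 : Real.exp (t / 128) * (Real.exp (-(t / 128)) * S1) ≤ Real.exp (t / 128) * S2 :=
          mul_le_mul_of_nonneg_left e1 (Real.exp_pos _).le
        rwa [← mul_assoc, ← Real.exp_add, add_neg_cancel, Real.exp_zero, one_mul] at h7
      have h8 : F ^ 16 ≤ (Real.exp (t / 128) * (S2 / 2 ^ n)) ^ 16 :=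
        pow_le_pow_left₀ hFp.le h6 16
      have h9 : (Real.exp (t / 128) * (S2 / 2 ^ n)) ^ 16 =
          Real.exp (t / 8) * (S2 ^ 16 / (2 ^ n) ^ 15 / 2 ^ n) := by
        rw [mul_pow, ← Real.exp_nat_mul, div_pow]
        have : ((16 : ℕ) : ℝ) * (t / 128) = t / 8 := by push_cast; ring
        rw [this]
        field_simp
      rw [h9] at h8
      refine h8.trans (mul_le_mul_of_nonneg_left ?_ (Real.exp_pos _).le)
      rw [hF]
      exact (div_le_div_iff_of_pos_right hN).2 e2
    have h10 : F ^ 15 ≤ Real.exp (t / 8) := by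
      have h11 : F ^ 15 * F ≤ Real.exp (t / 8) * F := by
        calc F ^ 15 * F = F ^ 16 := by ring
          _ ≤ _ := h5
      exact le_of_mul_le_mul_right h11 hFp
    have h12 : Real.exp (t / 8) = Real.exp (t / 120) ^ 15 := by
      rw [← Real.exp_nat_mul]
      congr 1
      push_cast
      ring
    rw [h12] at h10
    exact (pow_le_pow_iff_left₀ hFp.le (Real.exp_pos _).le (by norm_num)).1 h10
  -- Markov
  have e4 : ∑ y : Fin n → Bool, Real.exp (-(1 / 32) * (q y - t)) ≤
      2 ^ n * Real.exp (t / 120) := by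
    refine h2.trans ?_
    have h13 : ∑ y : Fin n → Bool, Real.exp (8 * (-(1 / 32)) ^ 2 * q y) = S1 := by
      rw [hS1]
      refine Finset.sum_congr rfl fun y _ => ?_
      congr 1
      ring
    rw [h13, hS1F, mul_comm]
    exact mul_le_mul_of_nonneg_left e3 hN.le
  have e5 : (#{y : Fin n → Bool | q y ≤ t / 2} : ℝ) * Real.exp (t / 64) ≤
      ∑ y : Fin n → Bool, Real.exp (-(1 / 32) * (q y - t)) := by
    rw [← nsmul_eq_mul, ← Finset.sum_const]
    refine (Finset.sum_le_sum fun y hy => ?_).trans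
      (Finset.sum_le_sum_of_subset_of_nonneg (Finset.filter_subset _ _)
        fun y _ _ => (Real.exp_pos _).le)
    have h14 : q y ≤ t / 2 := (Finset.mem_filter.1 hy).2
    refine Real.exp_le_exp.2 ?_
    linarith
  have e6 := e5.trans e4
  have e7 : (2 : ℝ) ^ n * Real.exp (-(7 / 960) * t) * Real.exp (t / 64) =
      2 ^ n * Real.exp (t / 120) := by
    rw [mul_assoc, ← Real.exp_add]
    congr 2
    ring
  rw [← e7] at e6
  exact le_of_mul_le_mul_right e6 (Real.exp_pos _)

end Pool.Agent.H69.E0
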